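import Mathlib

namespace Pool.Agent.H.MP_cb8b78_al

open Subgroup
open scoped commutatorElement

section
variable {Γ : Type*} [Group Γ]

/-- locally finite subgroup -/
def LF (M : Subgroup Γ) : Prop :=
  ∀ S : Set Γ, S.Finite → S ⊆ M → (closure S : Set Γ).Finite

theorem LF.fin {M : Subgroup Γ} (h : LF M) {x : Γ} (hx : x ∈ M) : IsOfFinOrder x := by
  have := h {x} (Set.finite_singleton x) (by simpa using hx)
  rw [← zpowers_eq_closure] at this
  exact finite_zpowers.1 this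

theorem LF.map {Δ : Type*} [Group Δ] {M : Subgroup Γ} (h : LF M) (f : Γ →* Δ) :
    LF (M.map f) := by
  intro S hS hSM
  have : ∀ y : S, ∃ x ∈ M, f x = y := fun y => hSM y.2
  choose g hg1 hg2 using this
  haveI := hS.to_subtype
  have h1 := h (Set.range g) (Set.finite_range g) (by rintro _ ⟨y, rfl⟩; exact hg1 y)
  refine (h1.image f).subset ?_
  rw [← coe_map, MonoidHom.map_closure]
  apply Subgroup.closure_mono
  intro y hy
  exact ⟨g ⟨y, hy⟩, ⟨_, rfl⟩, hg2 _⟩

theorem LF.comap {Δ : Type*} [Group Δ] {M : Subgroup Γ} (h : LF M) (f : Δ →* Γ)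
    (hf : Function.Injective f) : LF (M.comap f) := by
  intro S hS hSM
  have h1 := h (f '' S) (hS.image f) (by rintro _ ⟨y, hy, rfl⟩; exact hSM hy)
  rw [← MonoidHom.map_closure, coe_map] at h1
  exact Set.Finite.of_finite_image h1 hf.injOn

/-- periodic under conjugation -/
def Per (τ x : Γ) : Prop := ∃ m : ℕ, 0 < m ∧ Commute (τ ^ m) x

theorem per_of {M : Subgroup Γ} [hM : M.Normal] (h : LF M) {τ x : Γ} (hx : x ∈ M)
    (hy : Per τ (x⁻¹ * τ * x * τ⁻¹)) : Per τ x := by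
  obtain ⟨m, hm, hc⟩ := hy
  have h1 : ∀ j : ℕ, Commute (τ ^ m) (x⁻¹ * τ ^ j * x * (τ ^ j)⁻¹) := by
    intro j
    induction j with
    | zero => simp
    | succ j ih =>
      have e : x⁻¹ * τ ^ (j + 1) * x * (τ ^ (j + 1))⁻¹ =
          (x⁻¹ * τ * x * τ⁻¹) * (τ * (x⁻¹ * τ ^ j * x * (τ ^ j)⁻¹) * τ⁻¹) := by
        rw [pow_succ']; group
      rw [e]
      have hτ : Commute (τ ^ m) τ := Commute.pow_self τ m
      exact hc.mul_right ((hτ.mul_right ih).mul_right hτ.inv_right)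
  set z := x⁻¹ * τ ^ m * x * (τ ^ m)⁻¹ with hz
  have hzM : z ∈ M := by
    have := M.mul_mem (M.inv_mem hx) (hM.conj_mem x hx (τ ^ m))
    simpa [hz, mul_assoc] using this
  have h2 : ∀ j : ℕ, (τ ^ m) ^ j * x = x * z ^ j * (τ ^ m) ^ j := by
    intro j
    induction j with
    | zero => simp
    | succ j ih =>
      have e1 : τ ^ m * x = x * z * τ ^ m := by rw [hz]; group
      have e2 : τ ^ m * z ^ j = z ^ j * τ ^ m := ((h1 m).pow_right j).eq
      calc (τ ^ m) ^ (j + 1) * x = τ ^ m * ((τ ^ m) ^ j * x) := by rw [pow_succ', mul_assoc]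
        _ = (τ ^ m * x) * z ^ j * (τ ^ m) ^ j := by rw [ih]; simp only [mul_assoc]
        _ = x * z * (τ ^ m * z ^ j) * (τ ^ m) ^ j := by rw [e1]; simp only [mul_assoc]
        _ = x * z ^ (j + 1) * (τ ^ m) ^ (j + 1) := by
          rw [e2, pow_succ', pow_succ']; simp only [mul_assoc]
  obtain ⟨o, ho, hzo⟩ := (isOfFinOrder_iff_pow_eq_one).1 (h.fin hzM)
  refine ⟨m * o, Nat.mul_pos hm ho, ?_⟩
  have := h2 o
  rw [hzo, mul_one, ← pow_mul] at this
  exact this

theorem finiteIndex_of {M : Subgroup Γ} [hM : M.Normal] (h : LF M) [hfg : Group.FG Γ] (τ : Γ)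
    (h1 : ∀ g : Γ, ∃ k : ℤ, g * (τ ^ k)⁻¹ ∈ M) (h2 : ∀ b ∈ M, Per τ b) :
    (zpowers τ).FiniteIndex := by
  classical
  obtain ⟨S, hS, hSf⟩ := Group.fg_iff.1 hfg
  choose k hk using h1
  have hper : ∀ b ∈ M, (Set.range fun j : ℤ => τ ^ j * b * (τ ^ j)⁻¹).Finite := by
    intro b hb
    obtain ⟨m, hm, hc⟩ := h2 b hb
    refine ((Set.finite_Ico (0 : ℤ) m).image fun j : ℤ => τ ^ j * b * (τ ^ j)⁻¹).subset ?_
    rintro _ ⟨j, rfl⟩
    have hm' : (0 : ℤ) < m := by exact_mod_cast hm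
    refine ⟨j % m, ⟨Int.emod_nonneg _ hm'.ne', Int.emod_lt_of_pos _ hm'⟩, ?_⟩
    have e : τ ^ j = τ ^ (j % m) * (τ ^ m) ^ (j / m) := by
      rw [← zpow_natCast, ← zpow_mul, ← zpow_add, Int.emod_add_mul_ediv]
    have e2 := (hc.zpow_left (j / m)).eq
    simp only
    rw [e, mul_assoc _ ((τ ^ m) ^ (j / m)) b, e2]
    group
  let T : Set Γ := ⋃ g ∈ S, Set.range fun j : ℤ => τ ^ j * (g * (τ ^ k g)⁻¹) * (τ ^ j)⁻¹
  have hT : T.Finite := hSf.biUnion fun g _ => hper _ (hk g)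
  have hTM : T ⊆ M := by
    intro x hx
    simp only [T, Set.mem_iUnion] at hx
    obtain ⟨g, -, j, rfl⟩ := hx
    exact hM.conj_mem _ (hk g) _
  have hfin := h T hT hTM
  have hconj : ∀ (j : ℤ), ∀ x ∈ closure T, τ ^ j * x * (τ ^ j)⁻¹ ∈ closure T := by
    intro j x hx
    have : closure T ≤ (closure T).comap (MulAut.conj (τ ^ j)).toMonoidHom := by
      rw [closure_le]
      intro y hy
      simp only [T, Set.mem_iUnion] at hy
      obtain ⟨g, hg, i, rfl⟩ := hy
      apply Subgroup.subset_closure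
      simp only [T, Set.mem_iUnion]
      refine ⟨g, hg, j + i, ?_⟩
      simp only [MulEquiv.toMonoidHom_eq_coe, MonoidHom.coe_coe, MulAut.conj_apply, zpow_add]
      group
    exact this hx
  have hall : ∀ g : Γ, ∃ x ∈ closure T, ∃ j : ℤ, g = x * τ ^ j := by
    intro g
    have hg : g ∈ closure S := by rw [hS]; trivial
    induction hg using closure_induction with
    | mem g hg =>
      refine ⟨g * (τ ^ k g)⁻¹, subset_closure ?_, k g, by group⟩
      simp only [T, Set.mem_iUnion]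
      exact ⟨g, hg, 0, by simp⟩
    | one => exact ⟨1, one_mem _, 0, by simp⟩
    | mul g g' _ _ ih ih' =>
      obtain ⟨x, hx, j, rfl⟩ := ih
      obtain ⟨x', hx', j', rfl⟩ := ih'
      exact ⟨x * (τ ^ j * x' * (τ ^ j)⁻¹), mul_mem hx (hconj j x' hx'), j + j', by group⟩
    | inv g _ ih =>
      obtain ⟨x, hx, j, rfl⟩ := ih
      exact ⟨τ ^ (-j) * x⁻¹ * (τ ^ (-j))⁻¹, hconj _ _ (inv_mem hx), -j, by group⟩
  haveI := hfin.to_subtype
  haveI : Finite (Γ ⧸ zpowers τ) := by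
    apply Finite.of_surjective (fun x : (closure T : Set Γ) => (QuotientGroup.mk x.1 : Γ ⧸ zpowers τ))
    intro q
    obtain ⟨g, rfl⟩ := QuotientGroup.mk_surjective q
    obtain ⟨x, hx, j, rfl⟩ := hall g
    refine ⟨⟨x, hx⟩, ?_⟩
    rw [QuotientGroup.eq]
    exact ⟨j, by simp⟩
  exact finiteIndex_of_finite_quotient

theorem not_vn {M : Subgroup Γ} [hM : M.Normal] (h : LF M) {a t : Γ} (ha : a ∈ M)
    (hp : ¬ Per t a) : ¬ ∃ K : Subgroup Γ, K.FiniteIndex ∧ Group.IsNilpotent K := by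
  rintro ⟨K, hK, hN⟩
  obtain ⟨r, hr, -, hτ⟩ := exists_pow_mem_of_index_ne_zero
    (FiniteIndex.index_ne_zero (H := K.normalCore)) t
  have hτK : t ^ r ∈ K := K.normalCore_le hτ
  have key : ∀ n, ∀ x : K, x ∈ Subgroup.upperCentralSeries K n → (x : Γ) ∈ M → Per (t ^ r) (x : Γ) := by
    intro n
    induction n with
    | zero =>
      intro x hx _
      have : x = 1 := by simpa using hx
      exact ⟨1, one_pos, by simp [this]⟩
    | succ n ih =>
      intro x hx hxM
      have h1 := (Subgroup.mem_upperCentralSeries_succ_iff.1 (inv_mem hx)) ⟨t ^ r, hτK⟩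
      have h2 := ih _ h1 (by
        have := M.mul_mem (M.inv_mem hxM) (hM.conj_mem x hxM (t ^ r))
        simpa [commutatorElement_def, mul_assoc] using this)
      apply per_of h hxM
      simpa [commutatorElement_def] using h2
  obtain ⟨n, hn⟩ := hN.nilpotent'
  have hy : a⁻¹ * t ^ r * a * (t ^ r)⁻¹ ∈ K := by
    apply K.normalCore_le
    refine mul_mem ?_ (inv_mem hτ)
    have := (inferInstance : K.normalCore.Normal).conj_mem _ hτ a⁻¹
    simpa using this
  have h3 := key n ⟨_, hy⟩ (by rw [hn]; trivial) (by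
    have := M.mul_mem (M.inv_mem ha) (hM.conj_mem a ha (t ^ r))
    simpa [mul_assoc] using this)
  obtain ⟨m, hm, hc⟩ := per_of h ha h3
  exact hp ⟨r * m, Nat.mul_pos hr hm, by rwa [pow_mul]⟩

theorem section_vn {M : Subgroup Γ} [hM : M.Normal] (h : LF M) {t : Γ}
    (h1 : ∀ g : Γ, ∃ k : ℤ, g * (t ^ k)⁻¹ ∈ M)
    (h4 : ∀ o : ℕ, ∃ K : Subgroup Γ, K.Normal ∧ K.FiniteIndex ∧
      ∀ x ∈ K, ∀ q : ℕ, 0 < q → q ≤ o → x ^ q = 1 → x = 1)
    (H : Subgroup Γ) (N : Subgroup H) [N.Normal] (hfg : Group.FG (H ⧸ N))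
    (hd : derivedSeries (H ⧸ N) 2 = ⊥) :
    ∃ K : Subgroup (H ⧸ N), K.FiniteIndex ∧ Group.IsNilpotent K := by
  haveI : IsCyclic (Γ ⧸ M) := by
    refine ⟨⟨QuotientGroup.mk t, ?_⟩⟩
    intro q
    obtain ⟨g, rfl⟩ := QuotientGroup.mk_surjective q
    obtain ⟨k, hk⟩ := h1 g
    refine ⟨k, ?_⟩
    have := (QuotientGroup.eq_one_iff _).2 hk
    simp only [QuotientGroup.mk_mul, QuotientGroup.mk_inv, QuotientGroup.mk_zpow] at this
    exact (mul_inv_eq_one.1 this).symm
  let φ : H →* Γ ⧸ M := (QuotientGroup.mk' M).comp H.subtype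
  obtain ⟨⟨_, h0, rfl⟩, hg⟩ := IsCyclic.exists_generator (α := φ.range)
  have hH : ∀ g : H, ∃ k : ℤ, ((g * (h0 ^ k)⁻¹ : H) : Γ) ∈ M := by
    intro g
    obtain ⟨k, hk⟩ := hg ⟨φ g, g, rfl⟩
    refine ⟨k, ?_⟩
    have e : φ h0 ^ k = φ g := congrArg Subtype.val hk
    have : φ (g * (h0 ^ k)⁻¹) = 1 := by rw [map_mul, map_inv, map_zpow, e, mul_inv_cancel]
    exact (QuotientGroup.eq_one_iff _).1 this
  let π : H →* H ⧸ N := QuotientGroup.mk' N
  have hπ : Function.Surjective π := QuotientGroup.mk'_surjective N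
  let M' : Subgroup (H ⧸ N) := (M.comap H.subtype).map π
  haveI : M'.Normal := Normal.map inferInstance π hπ
  have hLF : LF M' := (h.comap H.subtype H.subtype_injective).map π
  have hcomm : ∀ x ∈ commutator (H ⧸ N), ∀ y ∈ commutator (H ⧸ N), Commute x y := by
    intro x hx y hy
    have : ⁅x, y⁆ ∈ derivedSeries (H ⧸ N) 2 := commutator_mem_commutator hx hy
    rw [hd, mem_bot] at this
    exact commutatorElement_eq_one_iff_commute.1 this
  have hc : ∀ c ∈ M', c ∈ commutator (H ⧸ N) → Per (π h0) c := by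
    rintro _ ⟨c, hcM, rfl⟩ hcc
    have hcM' : (c : Γ) ∈ M := hcM
    have hco := h.fin hcM'
    obtain ⟨K, hKn, hKf, hK⟩ := h4 (orderOf (c : Γ))
    obtain ⟨m, hm, -, hmK⟩ := exists_pow_mem_of_index_ne_zero
      (FiniteIndex.index_ne_zero (H := K)) (h0 : Γ)
    refine ⟨m, hm, ?_⟩
    set d : H := c⁻¹ * (h0 ^ m * c * (h0 ^ m)⁻¹) with hdd
    have hdK : (d : Γ) ∈ K := by
      have := K.mul_mem (hKn.conj_mem _ hmK (c : Γ)⁻¹) (K.inv_mem hmK)
      simpa [hdd, mul_assoc] using this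
    have hdM : (d : Γ) ∈ M := by
      have := M.mul_mem (M.inv_mem hcM') (hM.conj_mem _ hcM' ((h0 : Γ) ^ m))
      simpa [hdd] using this
    have hdo := h.fin hdM
    have hcop : Nat.Coprime (orderOf (d : Γ)) (orderOf (c : Γ)) := by
      apply Nat.coprime_of_dvd
      intro p hp h5 h6
      obtain ⟨e, he⟩ := h5
      have h7 := hK ((d : Γ) ^ e) (K.pow_mem hdK e) p hp.pos
        (Nat.le_of_dvd hco.orderOf_pos h6) (by rw [← pow_mul, mul_comm, ← he, pow_orderOf_eq_one])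
      have h8 := orderOf_dvd_of_pow_eq_one h7
      have h9 := hdo.orderOf_pos
      have he0 : 0 < e := by
        rcases Nat.eq_zero_or_pos e with h0 | h0
        · rw [h0] at he; omega
        · exact h0
      have := Nat.le_of_dvd he0 h8
      have := hp.two_le
      nlinarith
    have e1 : π d ^ orderOf (d : Γ) = 1 := by
      rw [← map_pow, orderOf_coe, pow_orderOf_eq_one, map_one]
    have e0 : π c ^ orderOf (c : Γ) = 1 := by
      rw [← map_pow, orderOf_coe, pow_orderOf_eq_one, map_one]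
    have e2 : π d ^ orderOf (c : Γ) = 1 := by
      have hc2 : π h0 ^ m * π c * (π h0 ^ m)⁻¹ ∈ commutator (H ⧸ N) :=
        (inferInstance : (commutator (H ⧸ N)).Normal).conj_mem _ hcc _
      have := hcomm _ (inv_mem hcc) _ hc2
      rw [hdd, map_mul, map_inv, map_mul, map_mul, map_inv, map_pow, this.mul_pow, inv_pow,
        conj_pow, e0]
      simp
    have e3 : π d = 1 := by
      have := Nat.dvd_gcd (orderOf_dvd_of_pow_eq_one e1) (orderOf_dvd_of_pow_eq_one e2)
      rw [hcop.gcd_eq_one, Nat.dvd_one] at this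
      exact orderOf_eq_one_iff.1 this
    rw [hdd, map_mul, map_inv, map_mul, map_mul, map_inv, map_pow, inv_mul_eq_one,
      eq_mul_inv_iff_mul_eq] at e3
    exact e3.symm
  refine ⟨zpowers (π h0), finiteIndex_of hLF _ ?_ ?_, ?_⟩
  rotate_left 2
  · letI : CommGroup (zpowers (π h0)) := IsMulCommutative.instCommGroup
    exact CommGroup.isNilpotent
  · intro g
    obtain ⟨g, rfl⟩ := hπ g
    obtain ⟨k, hk⟩ := hH g
    exact ⟨k, g * (h0 ^ k)⁻¹, hk, by simp⟩
  · intro b hb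
    apply per_of hLF hb
    apply hc
    · have := M'.mul_mem (M'.inv_mem hb) ((inferInstance : M'.Normal).conj_mem b hb (π h0))
      simpa [mul_assoc] using this
    · have : ⁅b⁻¹, π h0⁆ ∈ commutator (H ⧸ N) :=
        commutator_mem_commutator (mem_top _) (mem_top _)
      simpa [commutatorElement_def] using this

end

end Pool.Agent.H.MP_cb8b78_al
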