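import Pool.Agent.H.MP_cb8b78_al.A

namespace Pool.Agent.H.MP_cb8b78_al

open Subgroup RegularWreathProduct

/-- conjugates of `a` by powers of `t` -/
def cj {G : Type*} [Group G] (t a : G) (i : ℕ) : G := t ^ i * a * (t ^ i)⁻¹

theorem cj_succ {G : Type*} [Group G] (t a : G) (i : ℕ) :
    cj t a (i + 1) = t * cj t a i * t⁻¹ := by
  simp only [cj, pow_succ']; group

/-- the subgroup generated by the first `s` conjugates -/
def Asub {G : Type*} [Group G] (t a : G) (s : ℕ) : Subgroup G :=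
  closure {x | ∃ i < s, x = cj t a i}

theorem cj_mem {G : Type*} [Group G] (t a : G) {i s : ℕ} (h : i < s) : cj t a i ∈ Asub t a s :=
  Subgroup.subset_closure ⟨i, h, rfl⟩

theorem Asub_le {G : Type*} [Group G] {t a : G} {s : ℕ} {W : Subgroup G}
    (h : ∀ i < s, cj t a i ∈ W) : Asub t a s ≤ W := by
  rw [Asub, closure_le]
  rintro _ ⟨i, hi, rfl⟩
  exact h i hi

theorem map_cj {G H : Type*} [Group G] [Group H] (f : G →* H) (t a : G) (i : ℕ) :
    f (cj t a i) = cj (f t) (f a) i := by simp [cj]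

/-- a stage of the tower -/
structure St where
  G : Type
  [grp : Group G]
  [fin : Finite G]
  a : G
  t : G

attribute [instance] St.grp St.fin

/-- the lamp group -/
abbrev D (s : ℕ) : Type := Multiplicative (ZMod ((s + 1).factorial + 1))

theorem gen_ne (s : ℕ) : (Multiplicative.ofAdd 1 : D s) ≠ 1 := by
  haveI : Fact (1 < (s + 1).factorial + 1) := ⟨by have := Nat.factorial_pos (s + 1); omega⟩
  intro h
  exact one_ne_zero (α := ZMod ((s + 1).factorial + 1)) (Multiplicative.ofAdd.injective h)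

open Classical in
/-- the base element -/
noncomputable def w (S : St) (s : ℕ) : D s ≀ᵣ S.G :=
  ⟨fun x => if S.t⁻¹ * x * S.t ∈ Asub S.t S.a s then Multiplicative.ofAdd 1 else 1, 1⟩

theorem w_comm (S : St) (s : ℕ) (g : S.G) :
    w S s * inl g * (w S s)⁻¹ = inl g ↔ S.t⁻¹ * g * S.t ∈ Asub S.t S.a s := by
  classical
  rw [mul_inv_eq_iff_eq_mul]
  constructor
  · intro h
    have := congrFun (congrArg RegularWreathProduct.left h) g
    by_contra hn
    simp [w, hn] at this
    exact gen_ne s this.symm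
  · intro h
    ext x
    · have e : S.t⁻¹ * (g⁻¹ * x) * S.t = (S.t⁻¹ * g * S.t)⁻¹ * (S.t⁻¹ * x * S.t) := by group
      simp only [w, mul_left, left_inl, right_inl, Pi.mul_apply, Pi.one_apply, mul_one, one_mul, e,
        Subgroup.mul_mem_cancel_left _ (inv_mem h)]
    · simp [w]

/-- next stage -/
noncomputable def St.next (S : St) (s : ℕ) : St where
  G := D s ≀ᵣ S.G
  a := inl S.a
  t := w S s * inl S.t

theorem cj_step (S : St) (s : ℕ) (x : S.G) :
    (w S s * inl S.t) * inl x * (w S s * inl S.t)⁻¹ =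
      w S s * inl (S.t * x * S.t⁻¹) * (w S s)⁻¹ := by
  simp only [map_mul, map_inv]; group

theorem cj_next (S : St) (s : ℕ) : ∀ i ≤ s,
    cj (w S s * inl S.t) (inl S.a) i = inl (cj S.t S.a i) := by
  intro i
  induction i with
  | zero => intro _; simp [cj]
  | succ i ih =>
    intro h
    rw [cj_succ, ih (by omega), cj_step, ← cj_succ, w_comm, cj_succ]
    have := cj_mem S.t S.a (show i < s by omega)
    simpa [mul_assoc] using this

theorem inv_next (S : St) (s : ℕ) (h : cj S.t S.a s ∉ Asub S.t S.a s) :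
    cj (w S s * inl S.t) (inl S.a) (s + 1) ∉ Asub (w S s * inl S.t) (inl S.a) (s + 1) := by
  intro hm
  have h1 : Asub (w S s * inl S.t) (inl S.a) (s + 1) ≤ (inl : S.G →* D s ≀ᵣ S.G).range := by
    apply Asub_le
    intro i hi
    rw [cj_next S s i (by omega)]
    exact ⟨_, rfl⟩
  obtain ⟨g, hg⟩ := h1 hm
  rw [cj_succ, cj_next S s s le_rfl, cj_step] at hg
  have h2 : g = S.t * cj S.t S.a s * S.t⁻¹ := by
    have := congrArg RegularWreathProduct.right hg
    simpa [w] using this
  rw [← h2, eq_comm, w_comm, h2] at hg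
  apply h
  simpa [mul_assoc] using hg

/-- the tower -/
noncomputable def tw : ℕ → St
  | 0 => { G := Multiplicative (ZMod 2), a := Multiplicative.ofAdd 1, t := 1 }
  | s + 1 => (tw s).next s

theorem tw_inv : ∀ s, cj (tw s).t (tw s).a s ∉ Asub (tw s).t (tw s).a s
  | 0 => by
    intro h
    have h1 : Asub (tw 0).t (tw 0).a 0 ≤ ⊥ := Asub_le fun i hi => absurd hi (by omega)
    have h2 := h1 h
    rw [mem_bot] at h2
    have h4 : (tw 0).a = 1 := by simpa [cj] using h2
    have h3 : (Multiplicative.ofAdd 1 : Multiplicative (ZMod 2)) = 1 := h4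
    exact absurd h3 (by decide)
  | s + 1 => inv_next (tw s) s (tw_inv s)

/-- projection down the tower -/
noncomputable def pr (s : ℕ) : (tw (s + 1)).G →* (tw s).G :=
  (rightHom : D s ≀ᵣ (tw s).G →* (tw s).G)

/-- inclusion up the tower -/
noncomputable def up (s : ℕ) : (tw s).G →* (tw (s + 1)).G :=
  (inl : (tw s).G →* D s ≀ᵣ (tw s).G)

theorem pr_a (s : ℕ) : pr s (tw (s + 1)).a = (tw s).a := rfl

theorem pr_t (s : ℕ) : pr s (tw (s + 1)).t = (tw s).t := one_mul _

theorem up_cj (s i : ℕ) (h : i ≤ s) :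
    cj (tw (s + 1)).t (tw (s + 1)).a i = up s (cj (tw s).t (tw s).a i) := cj_next (tw s) s i h

theorem ker_pow' {Q : Type} [Group Q] (s : ℕ) (x : D s ≀ᵣ Q) (h : x.right = 1) :
    x ^ ((s + 1).factorial + 1) = 1 := by
  have h1 : ∀ n : ℕ, x ^ n = ⟨x.left ^ n, 1⟩ := by
    intro n
    induction n with
    | zero => rfl
    | succ n ih =>
      rw [pow_succ, ih]
      ext y
      · simp [pow_succ]
      · simp [h]
  rw [h1]
  ext y
  · have := pow_card_eq_one' (x := x.left y)
    rw [Nat.card_eq_fintype_card, Fintype.card_multiplicative, ZMod.card] at this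
    simp [this]
  · rfl

theorem ker_pow (s : ℕ) (x : (tw (s + 1)).G) (h : pr s x = 1) :
    x ^ ((s + 1).factorial + 1) = 1 := ker_pow' s x h

/-- the product of the tower -/
abbrev Pw : Type := ∀ s, (tw s).G

/-- the group -/
noncomputable def GG : Subgroup Pw := closure {fun s => (tw s).a, fun s => (tw s).t}

/-- first generator -/
noncomputable def ga : GG := ⟨fun s => (tw s).a, Subgroup.subset_closure (by simp)⟩

/-- second generator -/
noncomputable def gt : GG := ⟨fun s => (tw s).t, Subgroup.subset_closure (by simp)⟩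

/-- evaluation -/
noncomputable def ev (s : ℕ) : GG →* (tw s).G := (Pi.evalMonoidHom _ s).comp GG.subtype

theorem ev_a (s : ℕ) : ev s ga = (tw s).a := rfl
theorem ev_t (s : ℕ) : ev s gt = (tw s).t := rfl

theorem ev_ext {x y : GG} (h : ∀ s, ev s x = ev s y) : x = y := Subtype.ext (funext h)

theorem gen_top : closure ({ga, gt} : Set GG) = ⊤ := by
  apply map_injective GG.subtype_injective
  rw [MonoidHom.map_closure, Set.image_pair, ← MonoidHom.range_eq_map, range_subtype]
  rfl

theorem pr_ev (s : ℕ) (x : GG) : pr s (ev (s + 1) x) = ev s x := by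
  have : closure ({ga, gt} : Set GG) ≤ ((pr s).comp (ev (s + 1))).eqLocus (ev s) := by
    rw [closure_le]
    rintro _ (rfl | rfl)
    · exact pr_a s
    · exact pr_t s
  rw [gen_top] at this
  exact this (mem_top x)

theorem ev_down {x : GG} {s : ℕ} (h : ev s x = 1) : ∀ j ≤ s, ev j x = 1 := by
  intro j hj
  induction hj using Nat.decreasingInduction with
  | self => exact h
  | of_succ j _ ih => rw [← pr_ev, ih, map_one]

theorem Asub_fin (m : ℕ) : (Asub gt ga m : Set GG).Finite := by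
  have h1 : ∀ s, m ≤ s → Asub gt ga m ≤ (ev (s + 1)).eqLocus ((up s).comp (ev s)) := by
    intro s hs
    apply Asub_le
    intro i hi
    show ev (s + 1) _ = up s (ev s _)
    rw [map_cj, map_cj, ev_a, ev_t, ev_a, ev_t, up_cj s i (by omega)]
  apply Set.Finite.of_finite_image (f := ev m) (Set.toFinite _)
  intro x hx y hy hxy
  have hz : ev m (x⁻¹ * y) = 1 := by rw [map_mul, map_inv, hxy, inv_mul_cancel]
  have hm := mul_mem (inv_mem hx) hy
  have : x⁻¹ * y = 1 := by
    apply ev_ext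
    intro s
    rw [map_one]
    rcases le_total s m with h | h
    · exact ev_down hz s h
    · induction h with
      | refl => exact hz
      | step h ih =>
        have := h1 _ h hm
        have e : ev _ (x⁻¹ * y) = up _ (ev _ (x⁻¹ * y)) := this
        rw [e, ih, map_one]
  exact inv_mul_eq_one.1 this

/-- the locally finite normal subgroup -/
noncomputable def MM : Subgroup GG where
  carrier := {x | ∃ r : ℕ, gt ^ r * x * (gt ^ r)⁻¹ ∈ Asub gt ga (2 * r + 1)}
  one_mem' := ⟨0, by simp⟩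
  inv_mem' := by
    rintro x ⟨r, h⟩
    refine ⟨r, ?_⟩
    have := inv_mem h
    simpa [mul_assoc] using this
  mul_mem' := by
    have step : ∀ (x : GG) (r : ℕ), gt ^ r * x * (gt ^ r)⁻¹ ∈ Asub gt ga (2 * r + 1) →
        ∀ r', r ≤ r' → gt ^ r' * x * (gt ^ r')⁻¹ ∈ Asub gt ga (2 * r' + 1) := by
      intro x r h r' hr
      induction hr with
      | refl => exact h
      | @step n _ ih =>
        have h1 : Asub gt ga (2 * n + 1) ≤
            (Asub gt ga (2 * (n + 1) + 1)).comap (MulAut.conj gt).toMonoidHom := by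
          apply Asub_le
          intro i hi
          have := cj_mem gt ga (show i + 1 < 2 * (n + 1) + 1 by omega)
          rw [cj_succ] at this
          exact this
        have h2 : gt * (gt ^ n * x * (gt ^ n)⁻¹) * gt⁻¹ ∈ Asub gt ga (2 * (n + 1) + 1) := h1 ih
        have e : gt ^ (n + 1) * x * (gt ^ (n + 1))⁻¹ = gt * (gt ^ n * x * (gt ^ n)⁻¹) * gt⁻¹ := by
          rw [pow_succ']; group
        exact e ▸ h2
    rintro x y ⟨r, h⟩ ⟨r', h'⟩
    refine ⟨max r r', ?_⟩
    have := mul_mem (step x r h _ (le_max_left r r')) (step y r' h' _ (le_max_right r r'))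
    simpa [mul_assoc] using this

theorem ga_mem : ga ∈ MM := ⟨0, by simpa [cj] using cj_mem gt ga (show 0 < 1 by omega)⟩

theorem Asub_shift (n : ℕ) {x : GG} (h : x ∈ Asub gt ga n) :
    gt * x * gt⁻¹ ∈ Asub gt ga (n + 1) := by
  have h1 : Asub gt ga n ≤ (Asub gt ga (n + 1)).comap (MulAut.conj gt).toMonoidHom := by
    apply Asub_le
    intro i hi
    have := cj_mem gt ga (show i + 1 < n + 1 by omega)
    rw [cj_succ] at this
    exact this
  exact h1 h

theorem Asub_mono {n n' : ℕ} (h : n ≤ n') : Asub gt ga n ≤ Asub gt ga n' :=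
  Asub_le fun _ hi => cj_mem gt ga (by omega)

instance MM_normal : MM.Normal := by
  rw [← normalizer_eq_top_iff, eq_top_iff, ← gen_top, closure_le]
  rintro _ (rfl | rfl)
  · exact le_normalizer ga_mem
  · show gt ∈ normalizer (MM : Set GG)
    rw [mem_normalizer_iff]
    intro x
    constructor
    · rintro ⟨r, h⟩
      refine ⟨r + 1, ?_⟩
      have := Asub_mono (show 2 * r + 1 + 1 + 1 ≤ 2 * (r + 1) + 1 by omega)
        (Asub_shift _ (Asub_shift _ h))
      have e : gt ^ (r + 1) * (gt * x * gt⁻¹) * (gt ^ (r + 1))⁻¹ =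
          gt * (gt * (gt ^ r * x * (gt ^ r)⁻¹) * gt⁻¹) * gt⁻¹ := by group
      exact e ▸ this
    · rintro ⟨r, h⟩
      refine ⟨r + 1, ?_⟩
      have := Asub_mono (show 2 * r + 1 ≤ 2 * (r + 1) + 1 by omega) h
      have e : gt ^ (r + 1) * x * (gt ^ (r + 1))⁻¹ =
          gt ^ r * (gt * x * gt⁻¹) * (gt ^ r)⁻¹ := by group
      exact e ▸ this

theorem MM_LF : LF MM := by
  intro S hS hSM
  have h1 : ∃ r : ℕ, ∀ x ∈ S, gt ^ r * x * (gt ^ r)⁻¹ ∈ Asub gt ga (2 * r + 1) := by
    have step : ∀ (x : GG) (r : ℕ), gt ^ r * x * (gt ^ r)⁻¹ ∈ Asub gt ga (2 * r + 1) →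
        ∀ r', r ≤ r' → gt ^ r' * x * (gt ^ r')⁻¹ ∈ Asub gt ga (2 * r' + 1) := by
      intro x r h r' hr
      induction hr with
      | refl => exact h
      | @step n _ ih =>
        have := Asub_mono (show 2 * n + 1 + 1 ≤ 2 * (n + 1) + 1 by omega) (Asub_shift _ ih)
        have e : gt ^ (n + 1) * x * (gt ^ (n + 1))⁻¹ = gt * (gt ^ n * x * (gt ^ n)⁻¹) * gt⁻¹ := by
          rw [pow_succ']; group
        exact e ▸ this
    have : ∀ x : S, ∃ r : ℕ, gt ^ r * x * (gt ^ r)⁻¹ ∈ Asub gt ga (2 * r + 1) :=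
      fun x => hSM x.2
    choose r hr using this
    haveI := hS.to_subtype
    obtain ⟨R, hR⟩ := (Set.finite_range r).bddAbove
    exact ⟨R, fun x hx => step x _ (hr ⟨x, hx⟩) R (hR ⟨_, rfl⟩)⟩
  obtain ⟨r, hr⟩ := h1
  have h2 : closure S ≤ (Asub gt ga (2 * r + 1)).comap (MulAut.conj (gt ^ r)).toMonoidHom := by
    rw [closure_le]
    exact hr
  exact ((Asub_fin (2 * r + 1)).preimage (MulAut.conj (gt ^ r)).injective.injOn).subset h2

theorem cyc (g : GG) : ∃ k : ℤ, g * (gt ^ k)⁻¹ ∈ MM := by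
  have hg : g ∈ closure ({ga, gt} : Set GG) := by rw [gen_top]; trivial
  induction hg using closure_induction with
  | mem g hg =>
    rcases hg with rfl | rfl
    · exact ⟨0, by simpa using ga_mem⟩
    · exact ⟨1, by simp⟩
  | one => exact ⟨0, by simp⟩
  | mul g g' _ _ ih ih' =>
    obtain ⟨k, hk⟩ := ih
    obtain ⟨k', hk'⟩ := ih'
    refine ⟨k + k', ?_⟩
    have := mul_mem hk (MM_normal.conj_mem _ hk' (gt ^ k))
    have e : g * g' * (gt ^ (k + k'))⁻¹ =
      g * (gt ^ k)⁻¹ * (gt ^ k * (g' * (gt ^ k')⁻¹) * (gt ^ k)⁻¹) := by group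
    exact e ▸ this
  | inv g _ ih =>
    obtain ⟨k, hk⟩ := ih
    refine ⟨-k, ?_⟩
    have := MM_normal.conj_mem _ (inv_mem hk) (gt ^ (-k))
    have e : g⁻¹ * (gt ^ (-k))⁻¹ = gt ^ (-k) * (g * (gt ^ k)⁻¹)⁻¹ * (gt ^ (-k))⁻¹ := by group
    exact e ▸ this

theorem not_per : ¬ Per gt ga := by
  rintro ⟨m, hm, hc⟩
  apply tw_inv m
  have h1 : cj gt ga m = cj gt ga 0 := by simp [cj, hc.eq]
  have h2 := congrArg (ev m) h1
  rw [map_cj, map_cj, ev_a, ev_t] at h2
  rw [h2]
  exact cj_mem _ _ hm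

theorem kers (o : ℕ) : ∃ K : Subgroup GG, K.Normal ∧ K.FiniteIndex ∧
    ∀ x ∈ K, ∀ q : ℕ, 0 < q → q ≤ o → x ^ q = 1 → x = 1 := by
  refine ⟨(ev o).ker, inferInstance, inferInstance, ?_⟩
  intro x hx q hq hqo hxq
  apply ev_ext
  intro s
  rw [map_one]
  rcases le_total s o with h | h
  · exact ev_down hx s h
  · induction h with
    | refl => exact hx
    | @step n h ih =>
      have h1 := ker_pow n (ev (n + 1) x) (by rw [pr_ev, ih])
      have h2 : ev (n + 1) x ^ q = 1 := by rw [← map_pow, hxq, map_one]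
      have h3 : q ∣ (n + 1).factorial := Nat.dvd_factorial hq (by have : o ≤ n := h; omega)
      have h4 : Nat.Coprime q ((n + 1).factorial + 1) :=
        (Nat.coprime_self_add_right.2 (Nat.coprime_one_right _)).coprime_dvd_left h3
      have := Nat.dvd_gcd (orderOf_dvd_of_pow_eq_one h2) (orderOf_dvd_of_pow_eq_one h1)
      rw [h4.gcd_eq_one, Nat.dvd_one] at this
      exact orderOf_eq_one_iff.1 this

instance GG_fg : Group.FG GG :=
  Group.fg_iff.2 ⟨{ga, gt}, gen_top, Set.toFinite _⟩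

end Pool.Agent.H.MP_cb8b78_al
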